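import Pool.Agent.H255R3.STC.Main

/-!
# Semi-transitive chordal graphs are recognised in polynomial time

A chordal graph is semi-transitive iff a system of linear equations over the field with two elements
is solvable: unknowns `o x y` with `o y x = o x y + 1`, and for every edge `x y` with two nonadjacent
common neighbours `a`, `b` the equation `o x a + o y a + o x b + o y b = 0`. Necessity is a check of
paths with four vertices. For sufficiency, a chordal graph is built from blocks of vertices with the
same earlier neighbours, so that the earlier neighbourhood of a block together with some vertex
outside of it lies in an earlier bag; a gluing lemma for linear orders preserving all splits of the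
solution gives an acyclic orientation satisfying all equations, and such an orientation has no
shortcut. The system is solved by elimination in polynomial time.
-/

set_option autoImplicit false

namespace Pool.Agent.Results.MP_1d1d91_lc.ChordalPoly

open Pool.Agent.NPC Pool.Agent.H255R3.STC Pool.Agent.NPC.H255STC

/-- There is a polynomial-time algorithm which, given a chordal graph by its lists of vertices and
edges, decides whether it is semi-transitive; and a finite chordal graph is semi-transitive iff the
linear system is solvable. -/
theorem result :
    (∃ A : List Bool → List Bool, PolyTime A ∧ ∀ I : List ℕ × List (ℕ × ℕ),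
      IsChordal (graphOf I) → (SemiTransitive (graphOf I) → A (bits I) = [true]) ∧
        (¬ SemiTransitive (graphOf I) → A (bits I) = [false])) ∧
    ∀ (V : Type) [Fintype V] (G : SimpleGraph V), IsChordal G →
      (SemiTransitive G ↔ ∃ o : V → V → ZMod 2, (∀ x y, x ≠ y → o y x = o x y + 1) ∧
        ∀ x y a b, G.Adj x y → G.Adj x a → G.Adj y a → G.Adj x b → G.Adj y b → a ≠ b →
          ¬ G.Adj a b → o x a + o y a + o x b + o y b = 0) :=
  ⟨main, fun _ _ _ hG => semiTransitive_iff hG⟩

end Pool.Agent.Results.MP_1d1d91_lc.ChordalPoly
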